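import Mathlib

set_option autoImplicit false
set_option maxHeartbeats 400000

open Real Set

namespace Pool.Agent.Results.MP_174dab_an.Chords

/-- lengths of horizontal chords -/
def H (f : ℝ → ℝ) : Set ℝ := {l | l ∈ Icc (0 : ℝ) 1 ∧ ∃ x ∈ Icc l 1, f (x - l) = f x}

/-- the sine sum -/
noncomputable def g (n : ℕ) (x : ℝ) : ℝ := ∑ k ∈ Finset.Icc 1 n, sin (2 * π * k * x)

/-- the union of the intervals from `k/(n+1)` to `k/n` -/
def V (n : ℕ) : Set ℝ := ⋃ k ∈ Finset.Icc 1 n, Ioo ((k : ℝ) / (n + 1)) ((k : ℝ) / n)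

theorem cl (n : ℕ) (x : ℝ) : sin (π * x) * g n x = sin (n * (π * x)) * sin ((n + 1) * (π * x)) := by
  induction n with
  | zero => simp [g]
  | succ n ih =>
    rw [g, Finset.sum_Icc_succ_top (by omega), ← g, mul_add, ih]
    push_cast
    rw [show 2 * π * (n + 1) * x = 2 * ((n + 1) * (π * x)) by ring, sin_two_mul,
      show n * (π * x) = (n + 1) * (π * x) - π * x by ring,
      show (n + 1 + 1) * (π * x) = (n + 1) * (π * x) + π * x by ring, sin_add, sin_sub]
    ring

theorem g0 (n : ℕ) : g n 0 = 0 := by simp [g]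

theorem g1 (n : ℕ) : g n 1 = 0 := Finset.sum_eq_zero fun k _ => by
  rw [show 2 * π * k * 1 = ((2 * k : ℕ) : ℝ) * π by push_cast; ring, sin_nat_mul_pi]

theorem sh (a b : ℝ) (j : ℕ) : sin (a + j * π) * sin (b + j * π) = sin a * sin b := by
  rw [sin_add_nat_mul_pi, sin_add_nat_mul_pi, mul_mul_mul_comm, ← mul_pow]; simp

theorem no (n j : ℕ) (x l : ℝ) (hx : 0 ≤ x) (hy : x + l ≤ 1) (hl : l < 1) (h1 : j < (n + 1) * l)
    (h2 : n * l < j) : g n x ≠ g n (x + l) := by
  intro h
  have p := pi_pos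
  set d := π * (j - n * l) with hd
  set e := π * ((n + 1) * l - j) with he
  have d0 : 0 < d := mul_pos p (by linarith)
  have e0 : 0 < e := mul_pos p (by linarith)
  have de : d + e = π * l := by rw [hd, he]; ring
  have lp : π * l < π := by nlinarith
  have sd : 0 < sin d := sin_pos_of_pos_of_lt_pi d0 (by linarith)
  have se : 0 < sin e := sin_pos_of_pos_of_lt_pi e0 (by linarith)
  have c1 := cl n x
  have c2 := cl n (x + l)
  have q1 : n * (π * (x + l)) = n * (π * x) - d + j * π := by rw [hd]; ring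
  have q2 : (n + 1) * (π * (x + l)) = (n + 1) * (π * x) + e + j * π := by rw [he]; ring
  rw [q1, q2, sh, ← h, show π * (x + l) = π * x + e + d by linarith] at c2
  rcases hx.eq_or_lt with rfl | hx
  · rw [g0] at c2; simp [sd.ne', se.ne'] at c2
  rcases hy.eq_or_lt with hy | hy
  · rw [hy, g1] at h
    rw [hy] at q1 q2
    rw [h, mul_zero, show n * (π * x) = d + ((n : ℤ) - j : ℤ) * π by push_cast; linarith,
      show (n + 1) * (π * x) = -e + ((n : ℤ) + 1 - j : ℤ) * π by push_cast; linarith,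
      sin_add_int_mul_pi, sin_add_int_mul_pi] at c1
    simp [sd.ne', se.ne', zpow_ne_zero] at c1
  have t0 : 0 < π * x := by positivity
  have t1 : π * x + e + d < π := by nlinarith
  have s1 : 0 < sin (π * x) := sin_pos_of_pos_of_lt_pi t0 (by linarith)
  have s2 : 0 < sin (π * x + e) := sin_pos_of_pos_of_lt_pi (by linarith) (by linarith)
  have s3 : 0 < sin (π * x + e + d) := sin_pos_of_pos_of_lt_pi (by linarith) t1
  have hA : n * (π * x) = (n + 1) * (π * x) - π * x := by ring
  generalize (n + 1) * (π * x) = B at *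
  generalize n * (π * x) = A at *
  generalize π * x = t at *
  have i1 : sin B * sin (t + e) - sin (B + e) * sin t = sin e * sin A := by
    rw [hA]; simp only [sin_add, sin_sub]; ring
  have i2 : sin A * sin (t + e + d) - sin (A - d) * sin (t + e) = sin d * sin (B + e) := by
    rw [show B + e = A + (t + e) by linarith]
    generalize t + e = u; simp only [sin_add, sin_sub]; ring
  have i3 : sin A ^ 2 * (sin e * sin (t + e + d)) + sin (B + e) ^ 2 * (sin d * sin t) = 0 := by
    linear_combination (-sin A * sin (t + e + d)) * i1 - sin (B + e) * sin t * i2 -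
      sin (t + e) * sin (t + e + d) * c1 + sin (t + e) * sin t * c2
  have m1 := mul_pos se s3; have m2 := mul_pos sd s1
  have z1 : sin A = 0 := by
    by_contra z; have := mul_pos (pow_pos (abs_pos.2 z) 2) m1
    rw [sq_abs] at this; nlinarith [mul_nonneg (sq_nonneg (sin (B + e))) m2.le]
  have z2 : sin (B + e) = 0 := by
    rw [z1] at i3; simpa [sd.ne', s1.ne'] using i3
  rw [show t + e = B + e - A by linarith, sin_sub, z1, z2] at s2
  simp at s2

theorem pos (n k : ℕ) (t : ℝ) (h0 : 0 ≤ t) (h1 : t < 1) (h2 : k ≤ n * t) (h3 : (n + 1) * t ≤ k + 1) :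
    0 ≤ g n t := by
  rcases h0.eq_or_lt with rfl | h0
  · rw [g0]
  have p := pi_pos
  have s : 0 < sin (π * t) := sin_pos_of_pos_of_lt_pi (by positivity) (by nlinarith)
  have c := cl n t
  rw [show n * (π * t) = π * (n * t - k) + k * π by ring,
    show (n + 1) * (π * t) = π * ((n + 1) * t - k) + k * π by ring, sh] at c
  refine (mul_nonneg_iff_of_pos_left s).1 (c ▸ mul_nonneg ?_ ?_)
  · exact sin_nonneg_of_nonneg_of_le_pi (mul_nonneg p.le (by linarith)) (by nlinarith)
  · exact sin_nonneg_of_nonneg_of_le_pi (mul_nonneg p.le (by linarith)) (by nlinarith)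

theorem result (n : ℕ) (hn : 1 ≤ n) : H (g n) = Icc 0 1 \ V n := by
  have n0 : (0 : ℝ) < n := by exact_mod_cast hn
  ext l
  simp only [H, V, mem_ofPred_eq, mem_diff, mem_iUnion, Finset.mem_Icc, mem_Ioo, not_exists]
  refine and_congr_right fun ⟨l0, l1⟩ => ⟨?_, fun h => ?_⟩
  · rintro ⟨x, ⟨x0, x1⟩, h⟩ j ⟨_, hj⟩ ⟨h1, h2⟩
    have : (j : ℝ) ≤ n := by exact_mod_cast hj
    rw [div_lt_iff₀ (by positivity)] at h1
    rw [lt_div_iff₀ n0] at h2
    exact no n j (x - l) l (by linarith) (by linarith) (by nlinarith) (by linarith) (by linarith)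
      (by simpa using h)
  rcases l1.eq_or_lt with rfl | l1
  · exact ⟨1, by simp, by simp [g0, g1]⟩
  set k := ⌊n * l⌋₊
  have k1 : (k : ℝ) ≤ n * l := Nat.floor_le (by positivity)
  have k2 : n * l < k + 1 := Nat.lt_floor_add_one _
  have k3 : k < n := by
    have : (k : ℝ) < n := by nlinarith
    exact_mod_cast this
  have k4 : (k : ℝ) + 1 ≤ n := by exact_mod_cast k3
  have k5 : (n + 1) * l ≤ k + 1 := by
    by_contra hh
    refine h (k + 1) ⟨by omega, by omega⟩ ⟨?_, ?_⟩ <;> push_cast
    · rw [div_lt_iff₀ (by positivity)]; linarith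
    · rw [lt_div_iff₀ n0]; linarith
  set y := ((k : ℝ) + 1) / (n + 1) with hy
  have y1 : (n + 1) * y = k + 1 := by rw [hy]; field_simp
  have ly : l ≤ y := by nlinarith
  have y2 : y < 1 := by nlinarith
  have y0 : 0 < y := by positivity
  have gy : g n y = 0 := by
    have c := cl n y
    rw [show (n + 1) * (π * y) = ((k + 1 : ℕ) : ℝ) * π by push_cast; rw [← y1]; ring,
      sin_nat_mul_pi, mul_zero] at c
    have p := pi_pos
    exact (mul_eq_zero.1 c).resolve_left
      (sin_pos_of_pos_of_lt_pi (by positivity) (by nlinarith)).ne'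
  have a := pos n k l l0 l1 k1 k5
  have b := pos n 0 (y - l) (by linarith) (by linarith) (by simp; nlinarith) (by simp; nlinarith)
  have ct : Continuous fun x => g n (x - l) - g n x := by unfold g; fun_prop
  obtain ⟨x, hx, e⟩ := intermediate_value_Icc ly ct.continuousOn
    (show (0 : ℝ) ∈ _ from ⟨by simp [g0, a], by simp [gy, b]⟩)
  exact ⟨x, ⟨hx.1, hx.2.trans y2.le⟩, sub_eq_zero.1 e⟩

end Pool.Agent.Results.MP_174dab_an.Chords
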